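import Pool.Agent.H3.SF.Tg2

/-!
# Row HFB of srf_modules: quotients of homogeneous elements are homogeneous
-/

set_option autoImplicit false

namespace Pool.Agent.H72.SF

open MvPolynomial SC Pool.Agent.H27.LV
open Pool.Agent.H84.SM (dp cr dt)
open Pool.Agent.H92.SF Pool.Agent.H3.SF

theorem coeff_cq {F : Type} [Field F] (c : F) (V : Q2 F) (j : ℕ) :
    (cq c * V).coeff j = C c * V.coeff j := by
  have h : cq c = Polynomial.C (C c) := rfl
  rw [h, Polynomial.coeff_C_mul]

theorem tw_cq {k F : Type} [Field k] [Field F] [Algebra k F] (u : Fin 3 → F)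
    (dd : Fin 3 → Derivation k F F) (n : ℕ) (τ σ : ℤ) (c : F) (V : Q2 F)
    (hc : Hm k (eu u dd) σ c) (hV : Tw u dd n τ V) : Tw u dd n (σ + τ) (cq c * V) := by
  refine ⟨fun j => ⟨fun h => ?_, fun h => ?_⟩, fun j a => ?_⟩
  · rw [coeff_cq]
    have := (isHomogeneous_C (Fin 2) c).mul ((hV.1 j).1 h)
    rwa [zero_add] at this
  · rw [coeff_cq, (hV.1 j).2 h, mul_zero]
  · have h1 := hV.2 j a
    rw [coeff_cq, coeff_C_mul]
    unfold Hm at *
    rw [Derivation.leibniz, h1, hc]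
    simp only [smul_eq_mul]
    push_cast
    ring

theorem pf_HFB (hHFA : T_HFA) : T_HFB := by
  intro k F _ _ _ _ _ u dd δ j0 c0 J hS n w τ τ' P N hne hPN hP
  obtain ⟨c, w1, n', τ1, τ2, hc, hw, hτ, h1, h2⟩ := hHFA k F u dd δ j0 c0 J hS n τ P N hne hPN
  have hP0 : P ≠ 0 := left_ne_zero_of_mul hne
  obtain ⟨j, hj⟩ : ∃ j, P.coeff j ≠ 0 := by
    by_contra h
    push Not at h
    exact hP0 (Polynomial.ext fun j => by rw [h j, Polynomial.coeff_zero])
  obtain ⟨a, ha⟩ : ∃ a, (P.coeff j).coeff a ≠ 0 := by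
    by_contra h
    push Not at h
    exact hj (MvPolynomial.ext _ _ fun a => by rw [h a, coeff_zero])
  have hcoe : ((cq c * P).coeff j).coeff a = c * (P.coeff j).coeff a := by
    rw [coeff_cq, coeff_C_mul]
  have hcoe0 : ((cq c * P).coeff j).coeff a ≠ 0 := by
    rw [hcoe]
    exact mul_ne_zero hc ha
  have hjw : 3 * j ≤ w := by
    by_contra h
    exact hj ((hP.1 j).2 (not_le.1 h))
  have hjw1 : 3 * j ≤ w1 := by
    by_contra h
    apply hcoe0
    rw [(h1.1 j).2 (not_le.1 h), coeff_zero]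
  have hd := ((hP.1 j).1 hjw) ha
  have hd1 := ((h1.1 j).1 hjw1) hcoe0
  have hww : w = w1 := by
    have : w - 3 * j = w1 - 3 * j := hd.symm.trans hd1
    omega
  subst hww
  have hE1 := hP.2 j a
  have hE2 := h1.2 j a
  rw [hcoe] at hE2
  have hEc : Hm k (eu u dd) (τ1 - τ') c := by
    unfold Hm at *
    rw [Derivation.leibniz, hE1] at hE2
    simp only [smul_eq_mul] at hE2
    have h3 : (P.coeff j).coeff a * (eu u dd) c =
        (P.coeff j).coeff a * (((τ1 - τ' : ℤ) : F) * c) := by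
      push_cast at hE2 ⊢
      linear_combination hE2
    exact mul_left_cancel₀ ha h3
  refine ⟨by omega, ?_⟩
  have hN : N = cq c * (cq c⁻¹ * N) := by
    rw [← mul_assoc, ← map_mul, mul_inv_cancel₀ hc, map_one, one_mul]
  have h4 := tw_cq u dd n' τ2 (τ1 - τ') c _ hEc h2
  rw [← hN] at h4
  have e1 : n - w = n' := by omega
  have e2 : τ - τ' = τ1 - τ' + τ2 := by omega
  rw [e1, e2]
  exact h4

end Pool.Agent.H72.SF
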