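import Pool.Agent.H72.SF.YT
import Pool.Agent.H9.SF.QDefs
import Pool.Agent.H45.SF.Core

/-!
# Part V: subcomplete forcing notions of the final model give good embeddings. Exact targets

`M` is a countable transitive model, `B` an algebra of `M`, `G` a generic filter, `W = M[G]`.
-/

set_option linter.unusedVariables false

open Ordinal Cardinal Order Set
open scoped ZFSet

namespace SF

/-! ## General facts -/

/-- the function from `N'` to `N` with the name `σ` -/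
noncomputable def evF (σ G : V) : V := (dm σ).sep fun z => app σ z ∈ G

/-- VA. The name of an elementary map gives an elementary map. -/
def T_VA : Prop := ∀ (M : V → Prop) (B G N' N b σ : V), ZFm M → M B → CBAr M B →
  Gen M (pos B) (incl B) G → M N' → M N → M σ → M b → BMapS N' N B b σ → b ∈ G →
  IsElem N' N (evF σ G) ∧ Ext M G (evF σ G) ∧
    ∀ x ∈ N', ∀ y ∈ N, app (evF σ G) x = y ↔ app σ (ZFSet.pair x y) ∈ G

/-- VB. Generic filters and surjections: `rt` is the preorder of `mu` which is the pull back of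
`(c, r)` along the surjection `e`. -/
def T_VB : Prop := ∀ (W : V → Prop) (mu c r rt e : V), ZFm W → W mu → W c → W r → W rt → W e →
  IsPo c r → Onto e mu c →
  (∀ ξ η, ZFSet.pair ξ η ∈ rt ↔ ξ ∈ mu ∧ η ∈ mu ∧ ZFSet.pair (app e ξ) (app e η) ∈ r) →
  rt ⊆ ZFSet.prod mu mu → IsPo mu rt ∧
  (∀ H, Gen W mu rt H → Gen W c r (c.sep fun y => ∃ ξ ∈ H, ZFSet.pair (app e ξ) y ∈ r) ∧
    ∀ ξ ∈ H, app e ξ ∈ c.sep fun y => ∃ ξ ∈ H, ZFSet.pair (app e ξ) y ∈ r) ∧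
  ∀ Hc, Gen W c r Hc → Gen W mu rt (mu.sep fun ξ => app e ξ ∈ Hc) ∧
    Hc = c.sep fun y => ∃ ξ ∈ mu.sep (fun ξ => app e ξ ∈ Hc), ZFSet.pair (app e ξ) y ∈ r

/-- VC. Arbitrarily large cardinals. -/
def T_VC : Prop := ∀ W : V → Prop, ZFC W → ∀ α : Ordinal.{0}, W α.toZFSet → ∀ x, W x →
  ∃ θ : Ordinal.{0}, α ≤ θ ∧ IsCard W θ ∧ InH W θ x

/-- VD. `H_θ` is contained in a set. -/
def T_VD : Prop := ∀ W : V → Prop, ZFC W → ∀ θ : Ordinal.{0}, IsCard W θ →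
  ∃ h, W h ∧ ∀ x, InH W θ x → x ∈ h

/-! ## The situation -/

/-- the body of the definition of `SubCore`, for one `θ` -/
def SubAt (W : V → Prop) (c r : V) (θ : Ordinal.{0}) : Prop :=
  ∀ (τ : Ordinal.{0}) (A N : V), θ < τ → W τ.toZFSet → W A → N = LA A τ → A ∈ N →
      (∀ x, InH W θ x → x ∈ N) → ZFCm (· ∈ N) →
    ∀ (N' f θ' c' r' s' s A' : V), W N' → W f → Ctbl W N' → Full W N' → IsElem N' N f →
      θ' ∈ N' → ZFSet.pair c' r' ∈ N' → s' ∈ N' → A' ∈ N' →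
      app f θ' = θ.toZFSet → app f (ZFSet.pair c' r') = ZFSet.pair c r → app f s' = s →
      app f A' = A →
    ∀ G', W G' → Gen (· ∈ N') c' r' G' →
    ∃ p ∈ c, ∀ G, Gen W c r G → p ∈ G →
      ∃ f', Ext W G f' ∧ IsElem N' N f' ∧
        app f' θ' = θ.toZFSet ∧ app f' (ZFSet.pair c' r') = ZFSet.pair c r ∧ app f' s' = s ∧
        app f' A' = A ∧ ∀ x ∈ G', app f' x ∈ G

/-- The big side: `mu`, `ρ` are a `B`-preorder in `M` which gives the preorder of `mu` in `M[G]`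
which is the pull back of `(c, r)` along `e`; `C` is the algebra of the two-step forcing in `M`,
`k : B → C` the embedding. -/
structure BigS : Type 1 where
  (M B G mu ρ C k c r e : V)
  θ : Ordinal.{0}
  zfc : ZFC (· ∈ M)
  ctb : (M : Set V).Countable
  mB : B ∈ M
  cba : CBAr (· ∈ M) B
  ne : B ≠ {∅}
  gen : Gen (· ∈ M) (pos B) (incl B) G
  mmu : mu ∈ M
  ord : IsOrd mu
  mρ : ρ ∈ M
  pre : BPre B mu ρ
  mC : C ∈ M
  hC : ∀ O ∈ M, O ∈ C ↔ RegO (qS B mu) (qR B mu ρ) O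
  mkk : k ∈ M
  hk : k = resS B fun b => kS B mu b
  kC : ∀ b ∈ B, kS B mu b ∈ C
  wc : Ext (· ∈ M) G c
  wr : Ext (· ∈ M) G r
  we : Ext (· ∈ M) G e
  po : IsPo c r
  onto : Onto e mu c
  eq : ∀ ξ ∈ mu, ∀ η ∈ mu,
    app ρ (ZFSet.pair ξ η) ∈ G ↔ ZFSet.pair (app e ξ) (app e η) ∈ r
  card : IsCard (Ext (· ∈ M) G) θ
  inh : InH (Ext (· ∈ M) G) θ (ZFSet.pair c r)
  sub : SubAt (Ext (· ∈ M) G) c r θ

/-- the final model -/
def BigS.W (S : BigS) : V → Prop := Ext (· ∈ S.M) S.G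

/-- the names and objects which belong to the range of the elementary map -/
noncomputable def tupV (B mu ρ C k cn rn en th hn : V) : V :=
  ZFSet.pair B (ZFSet.pair mu (ZFSet.pair ρ (ZFSet.pair C (ZFSet.pair k (ZFSet.pair cn
    (ZFSet.pair rn (ZFSet.pair en (ZFSet.pair th hn))))))))

/-- The small side: `f : N' → N` is elementary, `N', N, G' ∈ M`, `f ∈ M[G]`. The names `cn, rn, en,
hn` are names of `c, r, e` and of a set which contains `H_θ`. The objects with a prime have the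
values of `f` without the prime (`tp`). -/
structure SmS : Type 1 extends BigS where
  (cn rn en hn N' N A f G' q : V)
  (B' mu' ρ' C' k' cn' rn' en' θ' hn' A' : V)
  (τ τ' : Ordinal.{0})
  mcn : cn ∈ M
  mrn : rn ∈ M
  men : en ∈ M
  mhn : hn ∈ M
  vcn : val G cn = c
  vrn : val G rn = r
  ven : val G en = e
  vhn : ∀ x, InH (Ext (· ∈ M) G) θ x → x ∈ val G hn
  mN' : N' ∈ M
  mN : N ∈ M
  zN' : ZFCm (· ∈ N')
  zN : ZFCm (· ∈ N)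
  mτ : τ.toZFSet ∈ M
  mA : A ∈ N
  eN : N = LA A τ
  mA' : A' ∈ N'
  eN' : N' = LA A' τ'
  fA : app f A' = A
  full : Full (· ∈ M) N'
  ct' : Ctbl (· ∈ M) N'
  el : IsElem N' N f
  mf : Ext (· ∈ M) G f
  mG' : G' ∈ M
  gen' : NGen N' C' G'
  mt : tupV B' mu' ρ' C' k' cn' rn' en' θ' hn' ∈ N'
  tp : app f (tupV B' mu' ρ' C' k' cn' rn' en' θ' hn') = tupV B mu ρ C k cn rn en θ.toZFSet hn
  com : ∀ x y, ZFSet.pair x y ∈ k' → y ∈ G' → app f x ∈ G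
  mq : q ∈ N'

namespace SmS

variable (S : SmS)

/-- the generic filter of the small two-step forcing -/
noncomputable def K' : V := (qS S.B' S.mu').sep fun t =>
  cl (qS S.B' S.mu') (fun a b => ZFSet.pair a b ∈ qR S.B' S.mu' S.ρ') t ∈ S.G'

/-- its first part, a generic filter of `B'` -/
noncomputable def Gs : V := dm S.K'

/-- its second part -/
noncomputable def Hs : V := rg S.K'

/-- `N'[Gs]` -/
noncomputable def N2' : V := extS S.N' S.Gs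

/-- `N[G]` -/
noncomputable def N2 : V := extS S.N S.G

/-- the small forcing notion -/
noncomputable def c' : V := val S.Gs S.cn'

/-- its order -/
noncomputable def r' : V := val S.Gs S.rn'

/-- the enumeration of the small forcing notion -/
noncomputable def e' : V := val S.Gs S.en'

/-- the generic filter of the small forcing notion -/
noncomputable def Gc : V := S.c'.sep fun y => ∃ ξ ∈ S.Hs, ZFSet.pair (app S.e' ξ) y ∈ S.r'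

end SmS

/-- VE. Components: `f` maps each component of the tuple to the corresponding component; the small
side has the same properties as the big side. -/
def T_VE : Prop := ∀ S : SmS,
  (S.B' ∈ S.N' ∧ S.mu' ∈ S.N' ∧ S.ρ' ∈ S.N' ∧ S.C' ∈ S.N' ∧ S.k' ∈ S.N' ∧ S.cn' ∈ S.N' ∧
    S.rn' ∈ S.N' ∧ S.en' ∈ S.N' ∧ S.θ' ∈ S.N' ∧ S.hn' ∈ S.N') ∧
  (app S.f S.B' = S.B ∧ app S.f S.mu' = S.mu ∧ app S.f S.ρ' = S.ρ ∧ app S.f S.C' = S.C ∧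
    app S.f S.k' = S.k ∧ app S.f S.cn' = S.cn ∧ app S.f S.rn' = S.rn ∧ app S.f S.en' = S.en ∧
    app S.f S.θ' = S.θ.toZFSet ∧ app S.f S.hn' = S.hn) ∧
  (S.B ∈ S.N ∧ S.mu ∈ S.N ∧ S.ρ ∈ S.N ∧ S.C ∈ S.N ∧ S.k ∈ S.N ∧ S.cn ∈ S.N ∧
    S.rn ∈ S.N ∧ S.en ∈ S.N ∧ S.θ.toZFSet ∈ S.N ∧ S.hn ∈ S.N) ∧
  CBAr (· ∈ S.N) S.B ∧ CBAr (· ∈ S.N') S.B' ∧ S.B' ≠ {∅} ∧ BPre S.B' S.mu' S.ρ' ∧
  (∀ O ∈ S.N', O ∈ S.C' ↔ RegO (qS S.B' S.mu') (qR S.B' S.mu' S.ρ') O) ∧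
  (S.k' = resS S.B' fun b => kS S.B' S.mu' b) ∧ ∀ b ∈ S.B', kS S.B' S.mu' b ∈ S.C'

/-- VF. The small generic filters. -/
def T_VF : Prop := ∀ S : SmS,
  Gen (· ∈ S.N') (qS S.B' S.mu') (qR S.B' S.mu' S.ρ') S.K' ∧
  (∀ O ∈ S.C', O ∈ S.G' ↔ ∃ t ∈ O, t ∈ S.K') ∧
  Gen (· ∈ S.N') (pos S.B') (incl S.B') S.Gs ∧
  Gen (Ext (· ∈ S.N') S.Gs) S.mu' (rt S.mu' S.ρ' S.Gs) S.Hs ∧ S.K' = ZFSet.prod S.Gs S.Hs ∧
  (∀ x ∈ S.Gs, app S.f x ∈ S.G) ∧ S.K' ∈ S.M ∧ S.Gs ∈ S.M ∧ S.Hs ∈ S.M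

/-- VG. The extension of the elementary map. -/
def T_VG : Prop := ∀ S : SmS, ∃ g, IsElem S.N2' S.N2 g ∧ S.W g ∧
  (∀ x ∈ S.N', app g x = app S.f x) ∧ app g S.Gs = S.G ∧
  (∀ x ∈ S.N', app g (val S.Gs x) = val S.G (app S.f x)) ∧
  S.N' ⊆ S.N2' ∧ S.N ⊆ S.N2 ∧ S.Gs ∈ S.N2' ∧ S.G ∈ S.N2 ∧
  ZFCm (· ∈ S.N2') ∧ ZFCm (· ∈ S.N2) ∧
  (∀ α : Ordinal.{0}, α.toZFSet ∈ S.N2' ↔ α < S.τ') ∧
  ∀ α : Ordinal.{0}, α.toZFSet ∈ S.N2 ↔ α < S.τ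

/-- VH. The requirements of the definition of subcompleteness for the models. -/
def T_VH : Prop := ∀ S : SmS, ∀ g, IsElem S.N2' S.N2 g → S.N2'.Nonempty → S.N2'.IsTransitive →
  (∃ A2' ∈ S.N2', S.N2 = LA (app g A2') S.τ ∧ app g A2' ∈ S.N2) ∧ S.θ < S.τ ∧
  S.W S.N2' ∧ Ctbl S.W S.N2' ∧ Full S.W S.N2' ∧ (∀ x, InH S.W S.θ x → x ∈ S.N2)

/-- VI. The small forcing notion and its generic filter. -/
def T_VI : Prop := ∀ S : SmS, IsPo S.c' S.r' ∧ Onto S.e' S.mu' S.c' ∧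
  S.c' ∈ S.N2' ∧ S.r' ∈ S.N2' ∧ S.e' ∈ S.N2' ∧
  Gen (· ∈ S.N2') S.c' S.r' S.Gc ∧ S.W S.Gc ∧ (∀ ξ ∈ S.Hs, ξ ∈ S.mu' ∧ app S.e' ξ ∈ S.Gc)

/-- VJ. Use of subcompleteness: there is a condition which forces the existence of the map. -/
def T_VJ : Prop := ∀ S : SmS, ∃ Hc, Gen S.W S.c S.r Hc ∧ ∃ f', Ext S.W Hc f' ∧
  IsElem S.N2' S.N2 f' ∧ app f' S.Gs = S.G ∧ app f' S.A' = S.A ∧ app f' S.e' = S.e ∧
  app f' S.mu' = S.mu ∧ app f' S.C' = S.C ∧ app f' S.q = app S.f S.q ∧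
  ∀ y ∈ S.Gc, app f' y ∈ Hc

/-- VK. The new elementary map on `N'`. -/
def T_VK : Prop := ∀ S : SmS, ∃ K, Gen (· ∈ S.M) (qS S.B S.mu) (qR S.B S.mu S.ρ) K ∧ dm K = S.G ∧
  ∃ f0, Ext (· ∈ S.M) K f0 ∧ IsElem S.N' S.N f0 ∧ app f0 S.q = app S.f S.q ∧
    ∀ z ∈ S.G', app f0 z ∈ S.C ∧ ∃ t ∈ K, t ∈ app f0 z

/-- VL. A map in the extension by the two-step forcing gives a lift in `M`. -/
def T_VL : Prop := ∀ (M B mu ρ C k N' N b σ G' q K f0 : V), ZFC (· ∈ M) →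
  (M : Set V).Countable → B ∈ M → CBAr (· ∈ M) B → B ≠ {∅} → mu ∈ M → ρ ∈ M → BPre B mu ρ →
  C ∈ M → (∀ O ∈ M, O ∈ C ↔ RegO (qS B mu) (qR B mu ρ) O) → CBAr (· ∈ M) C →
  k ∈ M → k = resS B (fun b => kS B mu b) → N' ∈ M → N ∈ M → N.IsTransitive → C ∈ N →
  b ∈ M → σ ∈ M → G' ∈ M → G' ⊆ N' → q ∈ N' →
  BMapS N' N B b σ → Gen (· ∈ M) (qS B mu) (qR B mu ρ) K → b ∈ dm K →
  Ext (· ∈ M) K f0 → IsElem N' N f0 → app f0 q = app (evF σ (dm K)) q →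
  (∀ z ∈ G', app f0 z ∈ C ∧ ∃ t ∈ K, t ∈ app f0 z) →
  ∃ b1 ∈ B, b1 ≠ ∅ ∧ b1 ⊆ b ∧ ∃ c ∈ M, ∃ σ' ∈ M, LiftS B C k N' N b1 σ G' q c σ'

/-- VM. There is no totally bad frame with a base in `G` (for the parameter which contains the
names). -/
def T_VM : Prop := ∀ S : BigS, CBAr (· ∈ S.M) S.C → ∀ cn ∈ S.M, ∀ rn ∈ S.M, ∀ en ∈ S.M,
  ∀ hn ∈ S.M, val S.G cn = S.c → val S.G rn = S.r → val S.G en = S.e →
  (∀ x, InH S.W S.θ x → x ∈ val S.G hn) → ∀ W ∈ S.M, ∀ ga ∈ S.M, ∀ b ∈ S.G,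
  ¬ TBx (· ∈ S.M) W ga S.B S.C S.k (tupV S.B S.mu S.ρ S.C S.k cn rn en S.θ.toZFSet hn) b

end SF
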