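import Pool.Agent.H45.SF.GT
import Pool.Agent.H68.SF.LT3
import Pool.Agent.H9.SF.WDefs

/-!
# Part X: consequences of goodness. Exact targets

The base forcing, existence of frames for the base morphism of an algebra, no new sequences of
hereditarily countable sets, club shooting.
-/

set_option linter.unusedVariables false

open Ordinal Cardinal Order Set
open scoped ZFSet

namespace SF

/-! ## The base forcing -/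

/-- XA. Conditions of the base forcing. -/
def T_XA : Prop :=
  (∀ q : V, q ∈ P0 ↔ ∃ α : Ordinal.{0}, α < Ordinal.omega.{0} 1 ∧ dm q = α.toZFSet ∧ Svl q ∧
    (∀ z ∈ q, IsPr z) ∧
    ∀ β T, ZFSet.pair β T ∈ q → ((T : V) : Set V).Countable ∧ ∀ x ∈ T, x ⊆ β) ∧
  ∅ ∈ P0 ∧
  (∀ p ∈ P0, ∀ q ∈ P0, ∀ r ∈ P0, p ⊆ r → q ⊆ r → p ⊆ q ∨ q ⊆ p) ∧
  (∀ F : V, (F : Set V).Countable → F ⊆ P0 → (∀ p ∈ F, ∀ q ∈ F, p ⊆ q ∨ q ⊆ p) →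
    (⋃₀ F : ZFSet) ∈ P0) ∧
  (∀ q ∈ P0, ∀ α : Ordinal.{0}, dm q = α.toZFSet → ∀ T : V, (T : Set V).Countable →
    (∀ x ∈ T, x ⊆ α.toZFSet) → insert (ZFSet.pair α.toZFSet T) q ∈ P0) ∧
  (∀ q ∈ P0, ∀ α : Ordinal.{0}, α < Ordinal.omega.{0} 1 → ∃ q' ∈ P0, q ⊆ q' ∧ α.toZFSet ∈ dm q')

/-- XB. Hereditarily countable sets. -/
def T_XB : Prop :=
  HC.IsTransitive ∧ (∀ x : V, (x : Set V).Countable → x ⊆ HC → x ∈ HC) ∧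
  (∀ x ∈ HC, ((x : V) : Set V).Countable) ∧ (∀ x ∈ HC, ∀ y ∈ HC, ZFSet.pair x y ∈ HC) ∧
  w1 ⊆ HC ∧ P0 ⊆ HC ∧ (∀ α : Ordinal.{0}, α.toZFSet ∈ HC → α < Ordinal.omega.{0} 1) ∧
  (∀ x ∈ HC, x = ∅ ∨ ∃ f ∈ HC, Onto f om x)

/-- XH. The values of acceptance, regular open sets generated by conditions. -/
def T_XH : Prop :=
  (∀ q ∈ P0, ∀ δ T, ZFSet.pair δ T ∈ q → ∀ S ∈ T, cl P0 leP0 q ⊆ accV δ S) ∧
  (∀ q ∈ P0, cl P0 leP0 q ∈ B0 ∧ q ∈ cl P0 leP0 q ∧ cl P0 leP0 q ≠ ∅) ∧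
  (∀ q ∈ P0, ∀ q2 ∈ P0, q ⊆ q2 → cl P0 leP0 q2 ⊆ cl P0 leP0 q) ∧
  (∀ q ∈ P0, ∀ q2 ∈ P0, cl P0 leP0 q ∩ cl P0 leP0 q2 ≠ ∅ → ∃ s ∈ P0, q ⊆ s ∧ q2 ⊆ s) ∧
  (∀ x ∈ B0, ∀ y ∈ B0, x ≠ ∅ → ∃ q ∈ P0, cl P0 leP0 q ⊆ x ∧
    (cl P0 leP0 q ⊆ y ∨ cl P0 leP0 q ∩ y = ∅)) ∧
  (⊤ : El B0).val = P0 ∧ (∀ δ S, (acc δ S).val = accV δ S)

/-- XE. An elementary map is a map with values in an algebra. -/
def T_XE : Prop := ∀ (B : V) [IsCBA B] (N' N f : V), IsElem N' N f → ∀ b : El B,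
  ∃ σ : V → V → El B, BMap N' N b σ ∧ (∀ x ∈ N', σ x (app f x) = b) ∧
    ∀ x y, σ x y ≠ ⊥ → x ∈ N' ∧ y = app f x

/-- XG. Existence of generic filters over countable sets. -/
def T_XG : Prop := ∀ N C c : V, (N : Set V).Countable → (∀ x ∈ C, ∀ y ∈ C, x ∩ y ∈ C) → c ∈ C →
  c ≠ ∅ → ∃ G, NGen N C G ∧ c ∈ G

/-- XS. The generic sequence of length `δ` of a generic filter over the small model. -/
def T_XS : Prop := ∀ (B : V) [IsCBA B] (N' N : V) (b : El B) (σ : V → V → El B),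
  NP N' N → BMap N' N b σ → b ≠ ⊥ → ∀ (H' w B' P' K' G' : V), σ H' HC = b → σ w w1 = b →
  σ B' B0 = b → σ P' P0 = b → σ K' (resS P0 (cl P0 leP0)) = b → NGen N' B' G' →
  ∃ q ∈ P0, dm q = w ∧ ∀ x ∈ G', ∃ u ∈ P', u ⊆ q ∧ u ∈ P0 ∧ ∃ y, ZFSet.pair u y ∈ K' ∧ y ∈ G' ∧
    y ⊆ x ∧ σ y (cl P0 leP0 u) = b

/-- XF. Existence of frames for the base morphism, with a given condition in the generic filter. -/
def T_XF : Prop := ∀ (C : BA) (p s : V) (c0 : El C.B), c0 ≠ ⊥ →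
  ∃ (F : Frame (bas C) p) (s' c' : V), F.σ s' s = F.b ∧ F.σ c' c0.val = F.b ∧ c' ∈ F.G'

/-- X1. Lifts of frames for the base morphism. -/
def T_X1 : Prop := ∀ C : BA, Good (bas C) → ∀ (c0 : El C.B), c0 ≠ ⊥ → ∀ s : V,
  ∃ (c : El C.B) (N' N : V) (σ : V → V → El C.B) (w C' G' s' : V), c ≠ ⊥ ∧ c ≤ c0 ∧ NP N' N ∧
    BMap N' N c σ ∧ σ w w1 = c ∧ σ C' C.B = c ∧ σ s' s = c ∧ NGen N' C' G' ∧
    (∀ x ∈ G', ∀ z, σ x z ≤ mkEl C.B z) ∧ ∀ r ∈ N', c ≤ C.g (acc w (ev w r G'))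

/-- X2. No new sequences of hereditarily countable sets. -/
def T_X2 : Prop := ∀ C : BA, Good (bas C) → ∀ F : V → V → El C.B,
  (∀ n ∈ om, (⨆ x : El HC, F n x.val) = ⊤) →
  ∀ c0 : El C.B, c0 ≠ ⊥ → ∃ c ≤ c0, c ≠ ⊥ ∧ ∀ n ∈ om, ∃ x ∈ HC, c ≤ F n x

/-! ## Club shooting

`gval C r δ`, `Clb`, `EEx`, `Tcl`, `o1` are defined in WDefs.lean. -/

/-- X3. Guessing at unboundedly many places. -/
def T_X3 : Prop := ∀ C : BA, Good (bas C) → ∀ r : Ordinal.{0} → El C.B, ∀ c0 : El C.B, c0 ≠ ⊥ →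
  ∀ β < o1, ∃ δ : Ordinal.{0}, β < δ ∧ δ < o1 ∧ c0 ⊓ gval C r δ ≠ ⊥

/-- the Boolean value that all elements of `t` are good places -/
noncomputable def tau (C : BA) (r : Ordinal.{0} → El C.B) (t : V) : El C.B :=
  ⨅ δ : {δ : Ordinal.{0} // δ.toZFSet ∈ t}, gval C r δ.1

/-- the conditions of the club shooting over `C` -/
noncomputable def QC (C : BA) (r : Ordinal.{0} → El C.B) : V :=
  (ZFSet.prod C.B Tcl).sep fun z => fst z ≠ ∅ ∧ fst z ⊆ (tau C r (snd z)).val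

/-- the order of the club shooting -/
def leQC (z z' : V) : Prop := fst z ⊆ fst z' ∧ EEx (snd z) (snd z')

theorem EEx.refl (t : V) : EEx t t := ⟨fun _ h => h, fun _ h _ => h⟩

theorem EEx.trans {t t' t'' : V} (h : EEx t t') (h' : EEx t' t'') : EEx t t'' := by
  refine ⟨fun x hx => h.1 (h'.1 hx), fun x hx hm => ?_⟩
  obtain ⟨m, hm1, hm2⟩ := hm
  exact h'.2 x (h.2 x hx ⟨m, h'.1 hm1, hm2⟩) ⟨m, hm1, hm2⟩

theorem leQC_refl (z : V) : leQC z z := ⟨fun _ h => h, EEx.refl _⟩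

theorem leQC_trans {z z' z'' : V} (h : leQC z z') (h' : leQC z' z'') : leQC z z'' :=
  ⟨fun _ hx => h'.1 (h.1 hx), h.2.trans h'.2⟩

instance isCBA_QC (C : BA) (r : Ordinal.{0} → El C.B) : IsCBA (RO (QC C r) leQC) :=
  isCBA_RO (fun _ _ => leQC_refl _) fun _ _ _ _ _ _ h h' => leQC_trans h h'

/-- `Z`, `k`, `e` are the algebra of the club shooting, the embedding of `C` and the values of the
closed sets -/
structure Shot (C : BA) (r : Ordinal.{0} → El C.B) (Z : BA) (k : BMor C Z) (e : V → El Z.B) :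
    Prop where
  eq : Z.B = RO (QC C r) leQC
  top : k ⊤ = ⊤
  kval : ∀ b : El C.B, (k b).val = (QC C r).sep fun z => fst z ⊆ b.val
  inj : ∀ b : El C.B, k b = ⊥ → b = ⊥
  eval : ∀ t, (e t).val = (QC C r).sep fun z => ∀ z' ∈ QC C r, leQC z' z → ∃ z'' ∈ QC C r,
    leQC z'' z' ∧ EEx (snd z'') t
  cl : ∀ (b : El C.B) (t : V), ZFSet.pair b.val t ∈ QC C r →
    (k b ⊓ e t).val = cl (QC C r) leQC (ZFSet.pair b.val t) ∧ k.proj (k b ⊓ e t) = b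
  cmp : ∀ t ∈ Tcl, ∀ t' ∈ Tcl, e t ⊓ e t' ≠ ⊥ → EEx t t' ∨ EEx t' t
  gv : ∀ t ∈ Tcl, ∀ δ : Ordinal.{0}, δ.toZFSet ∈ t → e t ≤ k (gval C r δ)

/-- XK. Existence of the algebra of the club shooting. -/
def T_XK : Prop := ∀ C : BA, Good (bas C) → ∀ r : Ordinal.{0} → El C.B,
  ∃ (Z : BA) (k : BMor C Z) (e : V → El Z.B), Shot C r Z k e

/-- XL. The density of long conditions. -/
def T_XL : Prop := ∀ C : BA, Good (bas C) → ∀ r : Ordinal.{0} → El C.B, ∀ z ∈ QC C r,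
  ∀ β < o1, ∃ z' ∈ QC C r, leQC z' z ∧ ∃ γ ∈ snd z', β.toZFSet ∈ γ

/-- XM. The club shooting is good. -/
def T_XM : Prop := ∀ C : BA, Good (bas C) → ∀ (r : Ordinal.{0} → El C.B) (Z : BA) (k : BMor C Z)
  (e : V → El Z.B), Shot C r Z k e → Good k

/-- X4. Club shooting. -/
def T_X4 : Prop := ∀ C : BA, Good (bas C) → ∀ r : Ordinal.{0} → El C.B,
  ∃ (Z : BA) (k : BMor C Z) (e : V → El Z.B), Good k ∧ k ⊤ = ⊤ ∧ (∀ b : El C.B, k b = ⊥ → b = ⊥) ∧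
    (∀ t ∈ Tcl, ∀ δ : Ordinal.{0}, δ.toZFSet ∈ t → e t ≤ k (gval C r δ)) ∧
    (∀ t ∈ Tcl, ∀ t' ∈ Tcl, e t ⊓ e t' ≠ ⊥ → EEx t t' ∨ EEx t' t) ∧
    ∀ β < o1, sSup {z | ∃ t ∈ Tcl, (∃ γ ∈ t, β.toZFSet ∈ γ) ∧ z = e t} = ⊤

end SF
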