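import Pool.Agent.H72.SF.XT
import Pool.Agent.H7.SF.PES

/-!
# Part Y: set coded frames and lifts, totally bad frames. Definitions and exact targets

All objects are sets; the notions are relative to a class `M` and definable. For `M = Al` they
agree with `Mor`, `BMap`, `Frame`, `IsLift`.
-/

set_option linter.unusedVariables false

open Ordinal Cardinal Order Set
open scoped ZFSet

namespace SF

/-! ## Morphisms -/

/-- `h` is (the graph of) a morphism in the sense of `M` -/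
structure MorR (M : V → Prop) (B C h : V) : Prop where
  func : ZFSet.IsFunc B C h
  inter : ∀ x ∈ B, ∀ y ∈ B, app h (x ∩ y) = app h x ∩ app h y
  lub : ∀ S, M S → S ⊆ B → ∀ y, LubB B S y → LubB C (imS S fun x => app h x) (app h y)

/-- `g` is a base morphism `b0 → B`, in the sense of `M` -/
structure BasR (M : V → Prop) (b0 B g : V) : Prop where
  cba : CBAr M B
  mor : MorR M b0 B g
  unit : app g (⋃₀ b0 : ZFSet) = (⋃₀ B : ZFSet)

/-- `h` is a morphism over the base algebra `b0`, in the sense of `M` -/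
structure BMorR (M : V → Prop) (b0 B g C gC h : V) : Prop where
  mor : MorR M B C h
  base : ∀ x ∈ b0, app h (app g x) = app gC x ∩ app h (⋃₀ B : ZFSet)

/-! ## Maps with values in an algebra -/

/-- `σ` is a function on `N' × N` with values in `B`: the name, with Boolean value `b`, of an
elementary map -/
structure BMapS (N' N B b σ : V) : Prop where
  func : ZFSet.IsFunc (ZFSet.prod N' N) B σ
  mem : b ∈ B
  tot : ∀ x ∈ N', LubB B (imS N fun y => app σ (ZFSet.pair x y)) b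
  fn : ∀ x ∈ N', ∀ y ∈ N, ∀ y' ∈ N, y ≠ y' →
    app σ (ZFSet.pair x y) ∩ app σ (ZFSet.pair x y') = ∅
  el : ∀ s : V, s ⊆ ZFSet.prod N' N → (s : Set V).Finite →
    (∃ x ∈ B, x ≠ ∅ ∧ ∀ q ∈ s, x ⊆ app σ q) → PE N' N s

/-- nice pairs in the sense of `M` -/
structure NPr (M : V → Prop) (N' N : V) : Prop where
  zfc : ZFCm (· ∈ N)
  lev : ∃ (A : V) (τ : Ordinal.{0}), A ∈ N ∧ M τ.toZFSet ∧ N = LA A τ
  full : Full M N'
  ctb : Ctbl M N'

/-- the value `σ x z` is below `z` (and empty if `z` is not in the algebra) -/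
def Blw (B σ x z : V) : Prop :=
  app σ (ZFSet.pair x z) ⊆ z ∧ (z ∉ B → app σ (ZFSet.pair x z) = ∅)

/-- A frame for the morphism `h : B → C` and the parameter `p`; `W` stands for `ω₁`, `ga` for the
function `(δ, S) ↦ ` the value of `S ∈ A_δ` (in `B`). -/
structure FrameS (M : V → Prop) (W ga B C h p N' N b σ w B' C' h' p' G' : V) : Prop where
  np : NPr M N' N
  ne : b ≠ ∅
  map : BMapS N' N B b σ
  kw : app σ (ZFSet.pair w W) = b
  kB : app σ (ZFSet.pair B' B) = b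
  kC : app σ (ZFSet.pair C' C) = b
  kh : app σ (ZFSet.pair h' h) = b
  kp : app σ (ZFSet.pair p' p) = b
  gen : NGen N' C' G'
  top : ∃ x y, ZFSet.pair x y ∈ h' ∧ y ∈ G'
  com : ∀ x y, ZFSet.pair x y ∈ h' → y ∈ G' → ∀ z ∈ N, Blw B σ x z
  sc : ∀ r ∈ N', b ⊆ app ga (ZFSet.pair w (ev w r G'))

/-- A lift of the frame (restricted to `b`) which preserves `q`. -/
structure LiftS (B C h N' N b σ G' q c σ' : V) : Prop where
  le : c ⊆ app h b
  proj : ∀ x ∈ B, c ⊆ app h x → b ⊆ x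
  map : BMapS N' N C c σ'
  com : ∀ x ∈ G', ∀ z ∈ N, Blw C σ' x z
  keep : ∀ z ∈ N, c ∩ app h (app σ (ZFSet.pair q z)) ⊆ app σ' (ZFSet.pair q z)

/-- A totally bad frame with the element `q`: no restriction has a lift which preserves `q`. -/
structure TBad (M : V → Prop) (W ga B C h p N' N b σ w B' C' h' p' G' q : V) : Prop where
  fr : FrameS M W ga B C h p N' N b σ w B' C' h' p' G'
  mem : q ∈ N'
  bad : ∀ b1 ∈ B, b1 ≠ ∅ → b1 ⊆ b → ∀ c, M c → ∀ σ', M σ' → ¬ LiftS B C h N' N b1 σ G' q c σ'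

/-- there is a totally bad frame with the base `b` -/
def TBx (M : V → Prop) (W ga B C h p b : V) : Prop :=
  ∃ N', M N' ∧ ∃ N, M N ∧ ∃ σ, M σ ∧ ∃ w, M w ∧ ∃ B', M B' ∧ ∃ C', M C' ∧ ∃ h', M h' ∧ ∃ p', M p' ∧
    ∃ G', M G' ∧ ∃ q, M q ∧ TBad M W ga B C h p N' N b σ w B' C' h' p' G' q

/-- goodness for set coded objects -/
def GoodS (M : V → Prop) (W ga B C h : V) : Prop := ∃ p, M p ∧
  ∀ N', M N' → ∀ N, M N → ∀ b, M b → ∀ σ, M σ → ∀ w, M w → ∀ B', M B' → ∀ C', M C' →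
  ∀ h', M h' → ∀ p', M p' → ∀ G', M G' → FrameS M W ga B C h p N' N b σ w B' C' h' p' G' →
  ∀ q ∈ N', ∃ c, M c ∧ ∃ σ', M σ' ∧ LiftS B C h N' N b σ G' q c σ'

/-! ## Definability -/

/-- YA. Definability of morphisms, generic filters, finite sets. -/
def T_YA : Prop :=
  Dfb ZFm (fun M v => MorR M (v 0) (v 1) (v 2)) ∧
  Dfb ZFm (fun M v => BasR M (v 0) (v 1) (v 2)) ∧
  Dfb ZFm (fun M v => BMorR M (v 0) (v 1) (v 2) (v 3) (v 4) (v 5)) ∧
  Dfb ZFm (fun _ v => NGen (v 0) (v 1) (v 2)) ∧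
  Dfb ZFm (fun _ v => ((v 0 : V) : Set V).Finite) ∧
  Tm ZFm (fun _ v => ev (v 0) (v 1) (v 2)) ∧
  ∀ M : V → Prop, ZFm M → ∀ a, M a → ∀ s : V, s ⊆ a → (s : Set V).Finite → M s

/-- YB. Definability of maps with values in an algebra. -/
def T_YB : Prop :=
  Dfb ZFm (fun _ v => BMapS (v 0) (v 1) (v 2) (v 3) (v 4)) ∧
  Dfb ZFm (fun M v => NPr M (v 0) (v 1)) ∧
  Dfb ZFm (fun _ v => Blw (v 0) (v 1) (v 2) (v 3))

/-- YC. Definability of frames and lifts. -/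
def T_YC : Prop :=
  Dfb ZFm (fun M v => FrameS M (v 0) (v 1) (v 2) (v 3) (v 4) (v 5) (v 6) (v 7) (v 8) (v 9) (v 10)
    (v 11) (v 12) (v 13) (v 14) (v 15)) ∧
  Dfb ZFm (fun _ v => LiftS (v 0) (v 1) (v 2) (v 3) (v 4) (v 5) (v 6) (v 7) (v 8) (v 9) (v 10)) ∧
  Dfb ZFm (fun M v => TBad M (v 0) (v 1) (v 2) (v 3) (v 4) (v 5) (v 6) (v 7) (v 8) (v 9) (v 10)
    (v 11) (v 12) (v 13) (v 14) (v 15) (v 16)) ∧
  Dfb ZFm (fun M v => TBx M (v 0) (v 1) (v 2) (v 3) (v 4) (v 5) (v 6)) ∧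
  Dfb ZFm (fun M v => GoodS M (v 0) (v 1) (v 2) (v 3) (v 4))

/-! ## The notions for the universe -/

/-- YD. Morphisms. -/
def T_YD : Prop :=
  (∀ (B C : V) [IsCBA B] [IsCBA C] (h : Mor B C), MorR Al B C h.gr ∧
    ∀ x : El B, app h.gr x.val = (h x).val) ∧
  (∀ (B C : V) [IsCBA B] [IsCBA C] (h : V), MorR Al B C h → ∃ m : Mor B C, m.gr = h) ∧
  (∀ A : BA, BasR Al B0 A.B A.g.gr) ∧
  (∀ B g, BasR Al B0 B g → ∃ A : BA, A.B = B ∧ A.g.gr = g) ∧
  (∀ (A C : BA) (h : BMor A C), BMorR Al B0 A.B A.g.gr C.B C.g.gr h.gr) ∧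
  ∀ (A C : BA) (h : V), BMorR Al B0 A.B A.g.gr C.B C.g.gr h → ∃ m : BMor A C, m.gr = h

open Classical in
/-- the set coded map -/
noncomputable def cS (N' N : V) {B : V} (σ : V → V → El B) : V :=
  resS (ZFSet.prod N' N) fun q => (σ (fst q) (snd q)).val

open Classical in
/-- the map with values in the type `El B` -/
noncomputable def cL (N' N B : V) [IsCBA B] (σ x y : V) : El B :=
  if x ∈ N' ∧ y ∈ N then mkEl B (app σ (ZFSet.pair x y)) else ⊥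

/-- YE. Maps with values in an algebra. -/
def T_YE : Prop := ∀ (B : V) [IsCBA B] (N' N : V),
  (∀ (b : El B) (σ : V → V → El B), BMap N' N b σ → BMapS N' N B b.val (cS N' N σ) ∧
    ∀ x ∈ N', ∀ y ∈ N, app (cS N' N σ) (ZFSet.pair x y) = (σ x y).val) ∧
  (∀ (b : El B) (σ : V), BMapS N' N B b.val σ → BMap N' N b (cL N' N B σ) ∧
    ∀ x ∈ N', ∀ y ∈ N, (cL N' N B σ x y).val = app σ (ZFSet.pair x y)) ∧
  (∀ N', NP N' N ↔ NPr Al N' N)

/-- YF. Frames and lifts. -/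
def T_YF : Prop := ∀ (A C : BA) (h : BMor A C) (p : V),
  (∀ F : Frame h p, FrameS Al w1 (gaf A) A.B C.B h.gr p F.N' F.N F.b.val (cS F.N' F.N F.σ) F.w
    F.B' F.C' F.h' F.p' F.G') ∧
  (∀ (N' N σ w B' C' h' p' G' : V) (b : El A.B), FrameS Al w1 (gaf A) A.B C.B h.gr p N' N b.val σ
    w B' C' h' p' G' → ∃ F : Frame h p, F.N' = N' ∧ F.N = N ∧ F.b = b ∧ F.w = w ∧ F.B' = B' ∧
      F.C' = C' ∧ F.h' = h' ∧ F.p' = p' ∧ F.G' = G' ∧ F.σ = cL N' N A.B σ ∧ cS N' N F.σ = σ) ∧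
  (∀ (F : Frame h p), ∀ q ∈ F.N', (∃ c σ', IsLift F q c σ') ↔ ∃ c σ', LiftS A.B C.B h.gr F.N' F.N
    F.b.val (cS F.N' F.N F.σ) F.G' q c σ') ∧
  (Good h ↔ GoodS Al w1 (gaf A) A.B C.B h.gr)

/-- YG. If `h` is not good below any element then there are totally bad frames. -/
def T_YG : Prop := ∀ (A C : BA) (h : BMor A C) (b2 : El A.B),
  (∀ b1 ≤ b2, b1 ≠ ⊥ → ¬ Good (h.res (h b1))) → ∀ (p : V) (b0 : El A.B), b0 ≤ b2 → b0 ≠ ⊥ →
  ∃ F : Frame h p, F.b ≤ b0 ∧ ∃ q ∈ F.N', ∀ F2 : Frame h p, F2.le F → ¬ ∃ c σ', IsLift F2 q c σ'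

/-- YH. The same, set coded. -/
def T_YH : Prop := ∀ (A C : BA) (h : BMor A C) (b2 : El A.B),
  (∀ b1 ≤ b2, b1 ≠ ⊥ → ¬ Good (h.res (h b1))) → ∀ (p : V) (b0 : El A.B), b0 ≤ b2 → b0 ≠ ⊥ →
  ∃ b : El A.B, b ≤ b0 ∧ TBx Al w1 (gaf A) A.B C.B h.gr p b.val

end SF
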